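import Pool.Agent.Q177.HX.HrigA

set_option autoImplicit false

/-!
# Job HRIG
-/

namespace Pool.Agent.Q177.HX

open Pool.Agent.TH450.FG (PF)

section glob

variable {k K : Type} [Field k] [Field K] [Algebra k K]

theorem alg_of_le (Q : PF.{0, 0, 0} k K) {z : K} (h : ∀ v, Q.V v z ≤ 1) : IsAlgebraic k z := by
  classical
  by_cases hz : z = 0
  · subst hz; exact isAlgebraic_zero
  refine Q.const z hz fun v => ?_
  by_contra hv
  set S := (Q.fin z hz).toFinset with hS
  have h1 := Q.prod z hz S (fun v hv => by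
    by_contra hcon
    exact hv (by rw [hS, Set.Finite.mem_toFinset]; exact hcon))
  have hpos : ∀ v, 0 < Q.V v z := fun v => (AbsoluteValue.pos_iff _).2 hz
  have h2 := (Finset.sum_eq_zero_iff_of_nonpos (fun v _ =>
    mul_nonpos_of_nonneg_of_nonpos (Q.wt_pos v).le (Real.log_nonpos (hpos v).le (h v)))).1 h1
  have h3 := h2 v (by rw [hS, Set.Finite.mem_toFinset]; exact hv)
  rcases mul_eq_zero.1 h3 with h4 | h4
  · exact (Q.wt_pos v).ne' h4
  · rcases Real.log_eq_zero.1 h4 with h5 | h5 | h5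
    · exact (hpos v).ne' h5
    · exact hv h5
    · have := hpos v; linarith

/-- polynomials with algebraic coefficients -/
theorem coeff_alg (P : Polynomial K) (s : Set K) (hs : s.Infinite)
    (h : ∀ c ∈ s, IsAlgebraic k c ∧ IsAlgebraic k (P.eval c)) (i : ℕ) : IsAlgebraic k (P.coeff i) := by
  classical
  set E := algebraicClosure k K with hE
  obtain ⟨T, hT, hTc⟩ := hs.exists_subset_card_eq (P.natDegree + 1)
  set R : Subring (Polynomial K) := (Polynomial.mapRingHom (algebraMap E K)).range with hR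
  have hC : ∀ c : K, IsAlgebraic k c → Polynomial.C c ∈ R := by
    intro c hc
    exact ⟨Polynomial.C ⟨c, mem_algebraicClosure_iff.2 hc⟩, by simp⟩
  have hX : (Polynomial.X : Polynomial K) ∈ R := ⟨Polynomial.X, by simp⟩
  have hP : P ∈ R := by
    have h1 : P = Lagrange.interpolate T id (fun i => P.eval i) :=
      Lagrange.eq_interpolate (Set.injOn_id _) (by
        rw [hTc]
        exact lt_of_le_of_lt Polynomial.degree_le_natDegree (by exact_mod_cast Nat.lt_succ_self _))
    rw [h1, Lagrange.interpolate_apply]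
    refine Subring.sum_mem _ fun c hc => Subring.mul_mem _ (hC _ (h c (hT hc)).2) ?_
    unfold Lagrange.basis
    refine Subring.prod_mem _ fun b hb => ?_
    unfold Lagrange.basisDivisor
    have hb' := h b (hT (Finset.mem_of_mem_erase hb))
    exact Subring.mul_mem _ (hC _ (((h c (hT hc)).1.sub hb'.1).inv)) (Subring.sub_mem _ hX (hC _ hb'.1))
  obtain ⟨P', hP'⟩ := hP
  rw [← hP', Polynomial.coe_mapRingHom, Polynomial.coeff_map]
  exact mem_algebraicClosure_iff.1 (P'.coeff i).2

/-- finitely many classes -/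
theorem few (Q : PF.{0, 0, 0} k K) (F : Polynomial K) (δ : K) (h2 : 2 ≤ F.natDegree)
    (hδ : ∀ v, Q.V v δ ≤ 1) (x : ℤ → K)
    (hrec : ∀ n, x (n + 1) + δ * x (n - 1) = F.eval (x n)) (hne : ∃ i j, x i ≠ x j)
    (c : Q.Pl → ℝ) (hc : {v | c v ≠ 1}.Finite) (hx : ∀ n v, Q.V v (x n) ≤ c v)
    (s : Setoid ℤ) (hs : ∀ n m, s.r n m ↔
      ∀ v, Q.V v F.leadingCoeff * Q.V v (x n - x m) ^ (F.natDegree - 1) ≤ 1) :
    Finite (Quotient s) := by
  classical
  by_contra hinf
  rw [not_finite_iff_infinite] at hinf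
  have ha : F.leadingCoeff ≠ 0 := by
    rw [Polynomial.leadingCoeff_ne_zero]
    rintro rfl
    simp at h2
  set B : Finset Q.Pl := (hc.union (Q.fin _ ha)).toFinset with hB
  have hout : ∀ v, v ∉ B → c v = 1 ∧ Q.V v F.leadingCoeff = 1 := by
    intro v hv
    constructor
    · by_contra hcon
      exact hv (by rw [hB, Set.Finite.mem_toFinset]; exact Or.inl hcon)
    · by_contra hcon
      exact hv (by rw [hB, Set.Finite.mem_toFinset]; exact Or.inr hcon)
  have hcol := fun (m : ℕ) (v : Q.Pl) => coloring (Q.V v) (Q.na v) F h2 x (c v) (fun n => hx n v) hne δ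
    (hδ v) hrec (1 + 1 / ((m : ℝ) + 1)) (by
      have : (0 : ℝ) < 1 / ((m : ℝ) + 1) := by positivity
      linarith)
  choose col hcol using hcol
  set N := Fintype.card (B → Fin (2 * F.natDegree)) with hN
  set e : Fin (N + 1) → Quotient s := fun i => Infinite.natEmbedding (Quotient s) i.val with he
  have heinj : Function.Injective e := fun i j hij =>
    Fin.ext ((Infinite.natEmbedding (Quotient s)).injective hij)
  have hpair : ∀ m : ℕ, ∃ p : Fin (N + 1) × Fin (N + 1), p.1 ≠ p.2 ∧
      ∀ v ∈ B, col m v (e p.1).out = col m v (e p.2).out := by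
    intro m
    obtain ⟨i, j, hij, hij2⟩ := Fintype.exists_ne_map_eq_of_card_lt
      (fun (i : Fin (N + 1)) (v : B) => col m v.1 (e i).out) (by rw [Fintype.card_fin]; omega)
    exact ⟨(i, j), hij, fun v hv => congrFun hij2 ⟨v, hv⟩⟩
  choose p hp1 hp2 using hpair
  obtain ⟨⟨i, j⟩, hfib⟩ := Finite.exists_infinite_fiber p
  have hfib' : (p ⁻¹' {(i, j)}).Infinite := Set.infinite_coe_iff.1 hfib
  have hij : i ≠ j := by
    obtain ⟨m, hm⟩ := hfib'.nonempty
    have h3 := hp1 m
    rw [show p m = (i, j) from hm] at h3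
    exact h3
  apply hij
  apply heinj
  rw [← Quotient.out_eq (e i), ← Quotient.out_eq (e j)]
  refine Quotient.sound ((hs _ _).2 fun v => ?_)
  by_cases hv : v ∈ B
  · by_contra hcon
    rw [not_le] at hcon
    set q := Q.V v F.leadingCoeff * Q.V v (x (e i).out - x (e j).out) ^ (F.natDegree - 1) with hq
    obtain ⟨m0, hm0⟩ := exists_nat_one_div_lt (show (0 : ℝ) < q - 1 by linarith)
    obtain ⟨m, hm, hmm⟩ := hfib'.exists_gt m0
    have h3 := hp2 m v hv
    rw [show p m = (i, j) from hm] at h3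
    have h4 := hcol m v _ _ h3
    have h5 : 1 / ((m : ℝ) + 1) ≤ 1 / ((m0 : ℝ) + 1) := by
      refine one_div_le_one_div_of_le (by positivity) ?_
      have : (m0 : ℝ) ≤ m := by exact_mod_cast hmm.le
      linarith
    rw [← hq] at h4
    linarith
  · obtain ⟨h3, h4⟩ := hout v hv
    rw [h4, one_mul]
    refine pow_le_one₀ ((Q.V v).nonneg _) ?_
    refine (na_sub _ (Q.na v) _ _).trans (max_le ?_ ?_)
    · rw [← h3]; exact hx _ v
    · rw [← h3]; exact hx _ v

end glob

/-- JOB HRIG -/
theorem hrig : Pool.Agent.Q256.HX.S_hrig := by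
  classical
  intro k K _ _ _ _ Q F δ h2 hδ0 hδa x hrec hinj c hc hx
  have hδ : ∀ v, Q.V v δ ≤ 1 := fun v => alg_le_one (Q.V v) (Q.na v) (Q.triv v) hδa
  have ha : F.leadingCoeff ≠ 0 := by
    rw [Polynomial.leadingCoeff_ne_zero]
    rintro rfl
    simp at h2
  have he1 : F.natDegree - 1 ≠ 0 := by omega
  -- the orbit takes infinitely many values
  have hxinf : (Set.range x).Infinite := by
    intro hfin
    have h3 : (Set.range fun n => (x n, x (n + 1))).Finite := by
      refine (hfin.prod hfin).subset ?_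
      rintro _ ⟨n, rfl⟩
      exact ⟨⟨n, rfl⟩, ⟨n + 1, rfl⟩⟩
    exact (Set.infinite_range_of_injective hinj) h3
  set f := hxinf.natEmbedding with hf
  have hν : ∀ n, ∃ i, x i = (f n).1 := fun n => (f n).2
  choose ν hν using hν
  have hνinj : Function.Injective fun n => x (ν n) := by
    intro a b hab
    simp only [hν] at hab
    exact f.injective (Subtype.ext hab)
  have hne : ∃ i j, x i ≠ x j := ⟨ν 0, ν 1, fun h => by
    have := hνinj h
    omega⟩
  -- the classes
  let s : Setoid ℤ :=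
    { r := fun n m => ∀ v, Q.V v F.leadingCoeff * Q.V v (x n - x m) ^ (F.natDegree - 1) ≤ 1
      iseqv := by
        refine ⟨fun n v => ?_, fun {n m} h v => ?_, fun {n m l} h h' v => ?_⟩
        · rw [sub_self, map_zero, zero_pow he1, mul_zero]; exact zero_le_one
        · rw [(Q.V v).map_sub]; exact h v
        · have h3 : Q.V v (x n - x l) ≤ max (Q.V v (x n - x m)) (Q.V v (x m - x l)) := by
            have := Q.na v (x n - x m) (x m - x l)
            rwa [sub_add_sub_cancel] at this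
          rcases le_max_iff.1 h3 with h4 | h4
          · exact (mul_le_mul_of_nonneg_left (pow_le_pow_left₀ ((Q.V v).nonneg _) h4 _)
              ((Q.V v).nonneg _)).trans (h v)
          · exact (mul_le_mul_of_nonneg_left (pow_le_pow_left₀ ((Q.V v).nonneg _) h4 _)
              ((Q.V v).nonneg _)).trans (h' v) }
  haveI : Finite (Quotient s) := few Q F δ h2 hδ x hrec hne c hc hx s (fun n m => Iff.rfl)
  obtain ⟨⟨q1, q2, q3⟩, hfib⟩ := Finite.exists_infinite_fiber
    (fun n : ℕ => ((Quotient.mk s (ν n), Quotient.mk s (ν n - 1), Quotient.mk s (ν n + 1)) :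
      Quotient s × Quotient s × Quotient s))
  set Fib := (fun n : ℕ => ((Quotient.mk s (ν n), Quotient.mk s (ν n - 1), Quotient.mk s (ν n + 1)) :
      Quotient s × Quotient s × Quotient s)) ⁻¹' {(q1, q2, q3)} with hFib
  have hfib' : Fib.Infinite := Set.infinite_coe_iff.1 hfib
  obtain ⟨a0, ha0⟩ := hfib'.nonempty
  obtain ⟨a1, ha1, ha01⟩ := hfib'.exists_gt a0
  have hrel : ∀ n ∈ Fib, s.r (ν n) (ν a0) ∧ s.r (ν n - 1) (ν a0 - 1) ∧ s.r (ν n + 1) (ν a0 + 1) := by
    intro n hn
    have h3 := Prod.mk.inj (show _ = (q1, q2, q3) from hn)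
    have h4 := Prod.mk.inj (show _ = (q1, q2, q3) from ha0)
    have h5 := Prod.mk.inj h3.2
    have h6 := Prod.mk.inj h4.2
    exact ⟨Quotient.exact (h3.1.trans h4.1.symm), Quotient.exact (h5.1.trans h6.1.symm),
      Quotient.exact (h5.2.trans h6.2.symm)⟩
  set i0 := ν a0 with hi0
  set ϖ := x (ν a1) - x i0 with hϖ
  have hϖ0 : ϖ ≠ 0 := by
    rw [hϖ, sub_ne_zero]
    intro h
    have := hνinj h
    omega
  have hϖr : ∀ v, Q.V v F.leadingCoeff * Q.V v ϖ ^ (F.natDegree - 1) ≤ 1 := (hrel a1 ha1).1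
  have hϖa : IsAlgebraic k (F.leadingCoeff * ϖ ^ (F.natDegree - 1)) :=
    alg_of_le Q fun v => by rw [map_mul, map_pow]; exact hϖr v
  have hϖa0 : F.leadingCoeff * ϖ ^ (F.natDegree - 1) ≠ 0 := mul_ne_zero ha (pow_ne_zero _ hϖ0)
  have hϖ1 : ∀ v, Q.V v F.leadingCoeff * Q.V v ϖ ^ (F.natDegree - 1) = 1 := by
    intro v
    rw [← map_pow, ← map_mul]
    exact alg_eq_one (Q.V v) (Q.na v) (Q.triv v) hϖa hϖa0
  -- equivalent elements differ by a multiple of `ϖ`
  have hdiff : ∀ n m, s.r n m → IsAlgebraic k ((x n - x m) / ϖ) := by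
    intro n m h
    refine alg_of_le Q fun v => ?_
    have h3 : Q.V v F.leadingCoeff * Q.V v (x n - x m) ^ (F.natDegree - 1) ≤ 1 := h v
    rw [← hϖ1 v] at h3
    have hpa : 0 < Q.V v F.leadingCoeff := (AbsoluteValue.pos_iff _).2 ha
    have hpϖ : 0 < Q.V v ϖ := (AbsoluteValue.pos_iff _).2 hϖ0
    have h4 := le_of_mul_le_mul_left h3 hpa
    have h5 := (pow_le_pow_iff_left₀ ((Q.V v).nonneg _) hpϖ.le he1).1 h4
    rw [map_div₀, div_le_one hpϖ]
    exact h5
  -- the polynomial
  set G : Polynomial K := Polynomial.C ϖ⁻¹ *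
    (F.comp (Polynomial.C ϖ * Polynomial.X + Polynomial.C (x i0)) - Polynomial.C (F.eval (x i0))) with hG
  have hGe : ∀ y, G.eval y = ϖ⁻¹ * (F.eval (ϖ * y + x i0) - F.eval (x i0)) := by
    intro y
    rw [hG]
    simp
  set y : ℤ → K := fun n => (x n - x i0) / ϖ with hy
  have hyx : ∀ n, ϖ * y n + x i0 = x n := by
    intro n
    simp only [hy]
    field_simp
    ring
  have hGy : ∀ n, G.eval (y n) = (y (n + 1) - y (i0 + 1)) + δ * (y (n - 1) - y (i0 - 1)) := by
    intro n
    rw [hGe, hyx, ← hrec, ← hrec]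
    simp only [hy]
    field_simp
    ring
  have hlin : (Polynomial.C ϖ * Polynomial.X + Polynomial.C (x i0)).natDegree = 1 :=
    Polynomial.natDegree_linear hϖ0
  have hcompd : (F.comp (Polynomial.C ϖ * Polynomial.X + Polynomial.C (x i0))).natDegree =
      F.natDegree := by
    rw [Polynomial.natDegree_comp, hlin, mul_one]
  have hGd : G.natDegree ≤ F.natDegree := by
    rw [hG]
    refine (Polynomial.natDegree_C_mul_le _ _).trans ?_
    rw [Polynomial.natDegree_sub_C, hcompd]
  have hGc : G.coeff F.natDegree = F.leadingCoeff * ϖ ^ (F.natDegree - 1) := by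
    rw [hG, Polynomial.coeff_C_mul, Polynomial.coeff_sub, Polynomial.coeff_C, if_neg (by omega), sub_zero]
    have h3 : (F.comp (Polynomial.C ϖ * Polynomial.X + Polynomial.C (x i0))).coeff F.natDegree =
        F.leadingCoeff * ϖ ^ F.natDegree := by
      conv_lhs => rw [← hcompd]
      rw [Polynomial.coeff_natDegree, Polynomial.leadingCoeff_comp (by rw [hlin]; exact one_ne_zero),
        Polynomial.leadingCoeff_linear hϖ0]
    rw [h3]
    obtain ⟨e, he⟩ : ∃ e, F.natDegree = e + 1 := ⟨F.natDegree - 1, by omega⟩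
    rw [he, Nat.add_sub_cancel, pow_succ]
    field_simp
  -- its coefficients are algebraic
  have hGalg : ∀ i, IsAlgebraic k (G.coeff i) := by
    refine coeff_alg G ((fun n => y (ν n)) '' Fib) (hfib'.image ?_) ?_
    · intro a _ b _ hab
      simp only [hy] at hab
      have h3 : x (ν a) = x (ν b) := by
        have := (div_left_inj' hϖ0).1 hab
        exact sub_left_inj.1 this
      exact hνinj h3
    · rintro _ ⟨n, hn, rfl⟩
      obtain ⟨h3, h4, h5⟩ := hrel n hn
      refine ⟨hdiff _ _ h3, ?_⟩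
      show IsAlgebraic k (G.eval (y (ν n)))
      rw [hGy]
      have e1 : y (ν n + 1) - y (i0 + 1) = (x (ν n + 1) - x (i0 + 1)) / ϖ := by
        simp only [hy]; ring
      have e2 : y (ν n - 1) - y (i0 - 1) = (x (ν n - 1) - x (i0 - 1)) / ϖ := by
        simp only [hy]; ring
      rw [e1, e2]
      exact (hdiff _ _ h5).add (hδa.mul (hdiff _ _ h4))
  -- the orbit is integral everywhere
  have hyle : ∀ v n, Q.V v (y n) ≤ 1 := by
    intro v n0
    by_contra hcon
    rw [not_le] at hcon
    have hpϖ : 0 < Q.V v ϖ := (AbsoluteValue.pos_iff _).2 hϖ0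
    have hbdd : BddAbove (Set.range fun n => Q.V v (y n)) := by
      refine ⟨c v / Q.V v ϖ, ?_⟩
      rintro _ ⟨n, rfl⟩
      simp only [hy]
      rw [map_div₀, div_le_div_iff_of_pos_right hpϖ]
      exact (na_sub _ (Q.na v) _ _).trans (max_le (hx _ v) (hx _ v))
    set M := sSup (Set.range fun n => Q.V v (y n)) with hM
    have hle : ∀ n, Q.V v (y n) ≤ M := fun n => le_csSup hbdd ⟨n, rfl⟩
    have hM1 : 1 < M := lt_of_lt_of_le hcon (hle n0)
    have hpow : ∀ n, 1 < Q.V v (y n) → Q.V v (y n) ^ F.natDegree ≤ M := by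
      intro n hn
      have h3 := poly_big (Q.V v) (Q.na v) G F.natDegree hGd
        (fun i _ => alg_le_one (Q.V v) (Q.na v) (Q.triv v) (hGalg i))
        (by
          refine alg_eq_one (Q.V v) (Q.na v) (Q.triv v) (hGalg _) ?_
          rw [hGc]; exact hϖa0) (y n) hn
      refine h3.trans ?_
      rw [hGy]
      refine (Q.na v _ _).trans (max_le ?_ ?_)
      · exact (na_sub _ (Q.na v) _ _).trans (max_le (hle _) (hle _))
      · rw [map_mul]
        calc Q.V v δ * Q.V v (y (n - 1) - y (i0 - 1)) ≤ 1 * Q.V v (y (n - 1) - y (i0 - 1)) :=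
              mul_le_mul_of_nonneg_right (hδ v) ((Q.V v).nonneg _)
          _ ≤ M := by
              rw [one_mul]
              exact (na_sub _ (Q.na v) _ _).trans (max_le (hle _) (hle _))
    have hsq : Real.sqrt M < M := by
      rw [Real.sqrt_lt' (by linarith)]
      nlinarith
    obtain ⟨_, ⟨n, rfl⟩, hn⟩ := exists_lt_of_lt_csSup (s := Set.range fun n => Q.V v (y n))
      ⟨_, ⟨n0, rfl⟩⟩ hsq
    simp only at hn
    have hs1 : 1 < Real.sqrt M := by
      rw [Real.lt_sqrt (by norm_num)]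
      linarith
    have hn1 : 1 < Q.V v (y n) := hs1.trans hn
    have h4 := hpow n hn1
    have h5 : Q.V v (y n) ^ 2 ≤ Q.V v (y n) ^ F.natDegree := pow_le_pow_right₀ hn1.le h2
    have h6 : M < Q.V v (y n) ^ 2 := by
      have := Real.sq_sqrt (show 0 ≤ M by linarith)
      nlinarith [Real.sqrt_nonneg M]
    linarith
  have hyalg : ∀ n, IsAlgebraic k (y n) := fun n => alg_of_le Q fun v => hyle v n
  intro i j p q hpq
  have h3 : (x i - x j) / (x p - x q) = (y i - y j) / (y p - y q) := by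
    rw [← hyx i, ← hyx j, ← hyx p, ← hyx q]
    rw [add_sub_add_right_eq_sub, add_sub_add_right_eq_sub, ← mul_sub, ← mul_sub,
      mul_div_mul_left _ _ hϖ0]
  rw [h3, div_eq_mul_inv]
  exact ((hyalg i).sub (hyalg j)).mul ((hyalg p).sub (hyalg q)).inv

end Pool.Agent.Q177.HX
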