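import Pool.Agent.Q256.HX.Stm

set_option autoImplicit false

/-!
# Job HRIG: preliminaries
-/

namespace Pool.Agent.Q177.HX

open Pool.Agent.TH450.FG (PF)
open Pool.Agent.H951R3.PB

section loc

variable {L : Type} [Field L]

theorem na_sum_le (w : AbsoluteValue L ℝ) (hw : IsNonarchimedean w) {ι : Type*} (s : Finset ι)
    (f : ι → L) {B : ℝ} (hB : 0 ≤ B) (h : ∀ i ∈ s, w (f i) ≤ B) : w (∑ i ∈ s, f i) ≤ B := by
  classical
  induction s using Finset.induction_on with
  | empty => simpa using hB
  | insert i s hi ih =>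
      rw [Finset.sum_insert hi]
      exact (hw _ _).trans (max_le (h i (Finset.mem_insert_self _ _))
        (ih fun j hj => h j (Finset.mem_insert_of_mem hj)))

theorem na_sub (w : AbsoluteValue L ℝ) (hw : IsNonarchimedean w) (x y : L) :
    w (x - y) ≤ max (w x) (w y) := by
  have := hw x (-y)
  rwa [← sub_eq_add_neg, w.map_neg] at this

/-- a polynomial with integral coefficients and unit coefficient of degree `d` at a large point -/
theorem poly_big (w : AbsoluteValue L ℝ) (hw : IsNonarchimedean w) (P : Polynomial L) (d : ℕ)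
    (hd : P.natDegree ≤ d) (hc : ∀ i < d, w (P.coeff i) ≤ 1) (hl : w (P.coeff d) = 1) (y : L)
    (hy : 1 < w y) : w y ^ d ≤ w (P.eval y) := by
  rcases Nat.eq_zero_or_pos d with h0 | h0
  · subst h0
    rw [Polynomial.eval_eq_sum_range' (Nat.lt_succ_of_le hd)]
    simp [hl]
  · have h1 : P.eval y = ∑ i ∈ Finset.range d, P.coeff i * y ^ i + P.coeff d * y ^ d := by
      rw [Polynomial.eval_eq_sum_range' (Nat.lt_succ_of_le hd), Finset.sum_range_succ]
    have h2 : w (∑ i ∈ Finset.range d, P.coeff i * y ^ i) ≤ w y ^ (d - 1) := by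
      refine na_sum_le w hw _ _ (by positivity) fun i hi => ?_
      rw [Finset.mem_range] at hi
      rw [map_mul, map_pow]
      calc w (P.coeff i) * w y ^ i ≤ 1 * w y ^ i :=
            mul_le_mul_of_nonneg_right (hc i hi) (by positivity)
        _ ≤ w y ^ (d - 1) := by rw [one_mul]; exact pow_le_pow_right₀ hy.le (by omega)
    have h3 : w (P.coeff d * y ^ d) = w y ^ d := by rw [map_mul, map_pow, hl, one_mul]
    have h4 : P.coeff d * y ^ d = P.eval y - ∑ i ∈ Finset.range d, P.coeff i * y ^ i := by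
      rw [h1]; ring
    have h5 := na_sub w hw (P.eval y) (∑ i ∈ Finset.range d, P.coeff i * y ^ i)
    rw [← h4, h3] at h5
    rcases le_max_iff.1 h5 with h | h
    · exact h
    · exfalso
      have h6 : w y ^ (d - 1) < w y ^ d := pow_lt_pow_right₀ hy (by omega)
      linarith

theorem alg_le_one {k : Type} [Field k] [Algebra k L] (w : AbsoluteValue L ℝ)
    (hw : IsNonarchimedean w) (ht : ∀ c : k, c ≠ 0 → w (algebraMap k L c) = 1) {z : L}
    (hz : IsAlgebraic k z) : w z ≤ 1 := by
  by_contra hcon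
  rw [not_le] at hcon
  have hint : IsIntegral k z := hz.isIntegral
  have hmon := minpoly.monic hint
  have h := poly_big w hw ((minpoly k z).map (algebraMap k L)) (minpoly k z).natDegree
    (by rw [Polynomial.natDegree_map]) (fun i _ => by
      rw [Polynomial.coeff_map]
      by_cases h0 : (minpoly k z).coeff i = 0
      · rw [h0]; simp
      · rw [ht _ h0])
    (by
      rw [Polynomial.coeff_map, Polynomial.coeff_natDegree, hmon.leadingCoeff]
      simp) z hcon
  rw [Polynomial.eval_map_algebraMap, minpoly.aeval, map_zero] at h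
  have : 0 < w z ^ (minpoly k z).natDegree := by positivity
  linarith

theorem alg_eq_one {k : Type} [Field k] [Algebra k L] (w : AbsoluteValue L ℝ)
    (hw : IsNonarchimedean w) (ht : ∀ c : k, c ≠ 0 → w (algebraMap k L c) = 1) {z : L}
    (hz : IsAlgebraic k z) (h0 : z ≠ 0) : w z = 1 := by
  refine le_antisymm (alg_le_one w hw ht hz) ?_
  have h1 := alg_le_one w hw ht hz.inv
  rw [map_inv₀] at h1
  have h2 : 0 < w z := (AbsoluteValue.pos_iff w).2 h0
  exact (inv_le_one₀ h2).1 h1

theorem pow_card_le (Z : Multiset L) (f : L → ℝ) (m : ℝ) (hm : 0 ≤ m) (h : ∀ z ∈ Z, m ≤ f z) :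
    m ^ Z.card ≤ (Z.map f).prod := by
  induction Z using Multiset.induction_on with
  | empty => simp
  | cons a s ih =>
    rw [Multiset.card_cons, Multiset.map_cons, Multiset.prod_cons, pow_succ']
    have h1 := h a (Multiset.mem_cons_self a s)
    have h2 := ih fun z hz => h z (Multiset.mem_cons_of_mem hz)
    exact mul_le_mul h1 h2 (by positivity) (hm.trans h1)

theorem near_root (w : AbsoluteValue L ℝ) (Z : Multiset L) (hZ : 1 ≤ Z.card) (A θ : ℝ) (hA : 0 ≤ A)
    (t : L) (h : A * (Z.map fun z => w (t - z)).prod ≤ θ) :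
    ∃ z ∈ Z, A * w (t - z) ^ Z.card ≤ θ := by
  classical
  obtain ⟨z, hz, hmin⟩ := Finset.exists_min_image Z.toFinset (fun z => w (t - z)) (by
    obtain ⟨z, hz⟩ := Multiset.card_pos_iff_exists_mem.1 (by omega : 0 < Z.card)
    exact ⟨z, Multiset.mem_toFinset.2 hz⟩)
  refine ⟨z, Multiset.mem_toFinset.1 hz, le_trans (mul_le_mul_of_nonneg_left ?_ hA) h⟩
  exact pow_card_le Z (fun z => w (t - z)) _ (w.nonneg _) fun y hy => hmin y (Multiset.mem_toFinset.2 hy)

end loc

section col

variable {K : Type} [Field K]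

/-- the roots of `F - F(b)` other than `b` -/
theorem roots_erase (F : Polynomial K) (hF : 1 ≤ F.natDegree) (b : K) :
    ∃ Z : Multiset (AlgebraicClosure K), Z.card = F.natDegree - 1 ∧ ∀ t : K,
      algebraMap K (AlgebraicClosure K) (F.eval t - F.eval b) =
        algebraMap K (AlgebraicClosure K) F.leadingCoeff *
          (algebraMap K (AlgebraicClosure K) (t - b) *
            (Z.map fun z => algebraMap K (AlgebraicClosure K) t - z).prod) := by
  classical
  set φ := algebraMap K (AlgebraicClosure K) with hφ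
  have hinj : Function.Injective φ := φ.injective
  have hdeg : (F - Polynomial.C (F.eval b)).natDegree = F.natDegree := by
    rw [Polynomial.natDegree_sub_C]
  set P := (F - Polynomial.C (F.eval b)).map φ with hP
  have hPdeg : P.natDegree = F.natDegree := by
    rw [hP, Polynomial.natDegree_map_eq_of_injective hinj, hdeg]
  have hP0 : P ≠ 0 := by
    intro h
    rw [h, Polynomial.natDegree_zero] at hPdeg
    omega
  have hlead : P.leadingCoeff = φ F.leadingCoeff := by
    rw [hP, Polynomial.leadingCoeff_map_of_injective hinj]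
    congr 1
    unfold Polynomial.leadingCoeff
    rw [hdeg, Polynomial.coeff_sub, Polynomial.coeff_C, if_neg (by omega), sub_zero]
  have hs : P.Splits := IsAlgClosed.splits P
  have hcard : P.roots.card = F.natDegree := by
    rw [← hPdeg]; exact hs.natDegree_eq_card_roots.symm
  have hb : φ b ∈ P.roots := by
    rw [Polynomial.mem_roots hP0, Polynomial.IsRoot.def, hP, Polynomial.eval_map, Polynomial.eval₂_at_apply]
    simp
  refine ⟨P.roots.erase (φ b), by rw [Multiset.card_erase_of_mem hb, hcard]; rfl, fun t => ?_⟩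
  have h1 := hs.eval_eq_prod_roots (φ t)
  have h2 : P.eval (φ t) = φ (F.eval t - F.eval b) := by
    rw [hP, Polynomial.eval_map, Polynomial.eval₂_at_apply]
    simp
  rw [← h2, h1, hlead, map_sub]
  congr 1
  exact (Multiset.prod_map_erase hb).symm

/-- colouring of the orbit -/
theorem coloring (V : AbsoluteValue K ℝ) (hV : IsNonarchimedean V) (F : Polynomial K)
    (h2 : 2 ≤ F.natDegree) (x : ℤ → K) (c : ℝ) (hc : ∀ n, V (x n) ≤ c) (hne : ∃ i j, x i ≠ x j)
    (δ : K) (hδ : V δ ≤ 1) (hrec : ∀ n, x (n + 1) + δ * x (n - 1) = F.eval (x n)) (θ : ℝ)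
    (hθ : 1 < θ) : ∃ col : ℤ → Fin (2 * F.natDegree), ∀ n m, col n = col m →
      V F.leadingCoeff * V (x n - x m) ^ (F.natDegree - 1) ≤ θ := by
  classical
  obtain ⟨w, hw⟩ := Pool.Agent.TH450.FG.exists_ext_gen V hV
  have hwna := Pool.Agent.TH450.FG.ext_na hV hw
  set D : Set ℝ := Set.range fun p : ℤ × ℤ => V (x p.1 - x p.2) with hD
  have hbdd : BddAbove D := by
    refine ⟨c, ?_⟩
    rintro _ ⟨p, rfl⟩
    exact (na_sub V hV _ _).trans (max_le (hc _) (hc _))
  set M := sSup D with hM
  have hleM : ∀ n m, V (x n - x m) ≤ M := fun n m => le_csSup hbdd ⟨(n, m), rfl⟩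
  have hM0 : 0 < M := by
    obtain ⟨i, j, hij⟩ := hne
    exact lt_of_lt_of_le ((AbsoluteValue.pos_iff V).2 (sub_ne_zero.2 hij)) (hleM i j)
  have hMθ : M / θ < M := by
    rw [div_lt_iff₀ (by linarith)]
    nlinarith
  obtain ⟨_, ⟨⟨i0, j0⟩, rfl⟩, hij⟩ := exists_lt_of_lt_csSup (s := D) ⟨_, ⟨(0, 0), rfl⟩⟩ hMθ
  simp only at hij
  have hFM : ∀ n m, V (F.eval (x n) - F.eval (x m)) ≤ M := by
    intro n m
    have h1 : F.eval (x n) - F.eval (x m) =
        (x (n + 1) - x (m + 1)) + δ * (x (n - 1) - x (m - 1)) := by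
      rw [← hrec, ← hrec]; ring
    rw [h1]
    refine (hV _ _).trans (max_le (hleM _ _) ?_)
    rw [map_mul]
    calc V δ * V (x (n - 1) - x (m - 1)) ≤ 1 * V (x (n - 1) - x (m - 1)) :=
          mul_le_mul_of_nonneg_right hδ (V.nonneg _)
      _ ≤ M := by rw [one_mul]; exact hleM _ _
  have key : ∀ b : ℤ, ∃ Z : Multiset (AlgebraicClosure K), Z.card = F.natDegree - 1 ∧
      ∀ n, M / θ ≤ V (x n - x b) → ∃ z ∈ Z, V F.leadingCoeff *
        w (algebraMap K (AlgebraicClosure K) (x n) - z) ^ (F.natDegree - 1) ≤ θ := by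
    intro b
    obtain ⟨Z, hZ, hZt⟩ := roots_erase F (by omega) (x b)
    refine ⟨Z, hZ, fun n hn => ?_⟩
    have h1 := congrArg w (hZt (x n))
    rw [hw, map_mul, map_mul, hw, hw, map_multiset_prod, Multiset.map_map] at h1
    have h3 := hFM n b
    rw [h1] at h3
    have hpos : 0 < V (x n - x b) := lt_of_lt_of_le (by positivity) hn
    rw [← hZ]
    refine near_root w Z (by omega) _ θ (V.nonneg _) _ ?_
    have h4 : V F.leadingCoeff * (Multiset.map (fun z => w ((algebraMap K (AlgebraicClosure K)) (x n) - z)) Z).prod *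
        V (x n - x b) ≤ θ * V (x n - x b) := by
      calc _ = V F.leadingCoeff * (V (x n - x b) *
            (Multiset.map (fun z => w ((algebraMap K (AlgebraicClosure K)) (x n) - z)) Z).prod) := by ring
        _ ≤ M := h3
        _ ≤ θ * V (x n - x b) := by
            rw [div_le_iff₀ (by linarith)] at hn
            linarith
    exact le_of_mul_le_mul_right h4 hpos
  obtain ⟨Z1, hZ1, hn1⟩ := key i0
  obtain ⟨Z2, hZ2, hn2⟩ := key j0
  set Z := (Z1 + Z2).toFinset with hZ
  have hcardZ : Z.card ≤ 2 * F.natDegree := by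
    refine (Multiset.toFinset_card_le _).trans ?_
    rw [Multiset.card_add]
    omega
  have hch : ∀ n, ∃ z ∈ Z, V F.leadingCoeff *
        w (algebraMap K (AlgebraicClosure K) (x n) - z) ^ (F.natDegree - 1) ≤ θ := by
    intro n
    by_cases h : M / θ ≤ V (x n - x i0)
    · obtain ⟨z, hz, hz2⟩ := hn1 n h
      exact ⟨z, by rw [hZ, Multiset.mem_toFinset]; exact Multiset.mem_add.2 (Or.inl hz), hz2⟩
    · have h' : M / θ ≤ V (x n - x j0) := by
        by_contra hcon
        rw [not_le] at h hcon
        have h5 := na_sub V hV (x n - x j0) (x n - x i0)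
        have h6 : x n - x j0 - (x n - x i0) = x i0 - x j0 := by ring
        rw [h6] at h5
        have := lt_of_lt_of_le hij h5
        rcases lt_max_iff.1 this with h7 | h7 <;> linarith
      obtain ⟨z, hz, hz2⟩ := hn2 n h'
      exact ⟨z, by rw [hZ, Multiset.mem_toFinset]; exact Multiset.mem_add.2 (Or.inr hz), hz2⟩
  choose ζ hζ hζ2 using hch
  refine ⟨fun n => Fin.castLE hcardZ (Z.equivFin ⟨ζ n, hζ n⟩), fun n m hnm => ?_⟩
  have hnm' : ζ n = ζ m := by
    have h1 := Fin.castLE_injective hcardZ hnm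
    have h3 := Z.equivFin.injective h1
    exact congrArg Subtype.val h3
  have h1 : V (x n - x m) ≤ max (w (algebraMap K (AlgebraicClosure K) (x n) - ζ n))
      (w (algebraMap K (AlgebraicClosure K) (x m) - ζ n)) := by
    rw [← hw, map_sub]
    have := na_sub w hwna (algebraMap K (AlgebraicClosure K) (x n) - ζ n)
      (algebraMap K (AlgebraicClosure K) (x m) - ζ n)
    rwa [sub_sub_sub_cancel_right] at this
  rcases le_max_iff.1 h1 with h | h
  · exact (mul_le_mul_of_nonneg_left (pow_le_pow_left₀ (V.nonneg _) h _) (V.nonneg _)).trans (hζ2 n)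
  · rw [hnm'] at h
    exact (mul_le_mul_of_nonneg_left (pow_le_pow_left₀ (V.nonneg _) h _) (V.nonneg _)).trans (hζ2 m)

end col

end Pool.Agent.Q177.HX
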